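import Mathlib
import Pool.Agent.H14.CommPGL

namespace Pool.Agent.Results.MP_dcd76c_al.Chromatic

open Pool.Agent.H14.CommPGL in
theorem result (n : ℕ) (hn : 0 < n) : ∃ (G : Type) (_ : Group G), Finite G ∧
    (∃ a b : G, a * b ≠ b * a) ∧ (commGraph G).chromaticNumber = (2 * n + 1 : ℕ) := by
  obtain ⟨G, i, h1, h2, -, h3⟩ := main n hn
  exact ⟨G, i, h1, h2, h3⟩

end Pool.Agent.Results.MP_dcd76c_al.Chromatic
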